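import Pool.Agent.Helper63.XP.StA

/-!
# Project XP, module PRA: the product graph (layers, numbers)
-/

set_option autoImplicit false

namespace Pool.Agent.Helper93.XP

open Finset
open Pool.Agent.Helper63.XP

section

variable {k : ℕ} {V W : Fin k → Type}

/-- the coordinates `j < plev u` are the `inr` coordinates -/
theorem right_iff (u : PT V W) (j : Fin k) : (u.1 j).isRight = true ↔ (j : ℕ) < plev u := by
  classical
  constructor
  · intro h
    have hsub : Finset.Iic j ⊆ univ.filter (fun i => (u.1 i).isRight = true) := by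
      intro i hi
      rw [Finset.mem_Iic] at hi
      rw [Finset.mem_filter]
      refine ⟨Finset.mem_univ _, ?_⟩
      rcases eq_or_lt_of_le hi with h1 | h1
      · rw [h1]; exact h
      · exact u.2 i j h1 h
    have h2 := Finset.card_le_card hsub
    rw [Fin.card_Iic] at h2
    have h3 : plev u = (univ.filter (fun i => (u.1 i).isRight = true)).card := rfl
    omega
  · intro h
    by_contra hn
    have hsub : univ.filter (fun i => (u.1 i).isRight = true) ⊆ Finset.Iio j := by
      intro i hi
      rw [Finset.mem_filter] at hi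
      rw [Finset.mem_Iio]
      by_contra hij
      have hij' : j ≤ i := not_lt.mp hij
      rcases eq_or_lt_of_le hij' with h1 | h1
      · apply hn; rw [h1]; exact hi.2
      · exact hn (u.2 j i h1 hi.2)
    have h2 := Finset.card_le_card hsub
    rw [Fin.card_Iio] at h2
    have h3 : plev u = (univ.filter (fun i => (u.1 i).isRight = true)).card := rfl
    omega

theorem plev_le (u : PT V W) : plev u ≤ k := by
  have h := Finset.card_filter_le (univ : Finset (Fin k)) (fun j => (u.1 j).isRight = true)
  rw [Finset.card_univ, Fintype.card_fin] at h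
  exact h

theorem pt_ext {u v : PT V W} (h : ∀ i, u.1 i = v.1 i) : u = v := Subtype.ext (funext h)

variable [∀ j, Fintype (V j)] [∀ j, Fintype (W j)]

theorem mem_pch {ch : ∀ j, V j → Finset (W j)} {u c : PT V W} : c ∈ pch ch u ↔
    ∃ (j : Fin k) (v : V j) (w : W j), u.1 j = Sum.inl v ∧ c.1 j = Sum.inr w ∧ w ∈ ch j v ∧
      ∀ i, i ≠ j → c.1 i = u.1 i := by
  classical
  unfold pch
  rw [Finset.mem_filter]
  exact ⟨fun h => h.2, fun h => ⟨Finset.mem_univ _, h⟩⟩

theorem plev_child {ch : ∀ j, V j → Finset (W j)} {u c : PT V W} (h : c ∈ pch ch u) : plev c = plev u + 1 := by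
  classical
  obtain ⟨j, v, w, hu, hc, -, hi⟩ := mem_pch.mp h
  have h1 : univ.filter (fun i => (c.1 i).isRight = true) =
      insert j (univ.filter (fun i => (u.1 i).isRight = true)) := by
    ext i
    simp only [Finset.mem_filter, Finset.mem_univ, true_and, Finset.mem_insert]
    by_cases hij : i = j
    · subst hij
      rw [hc]; simp
    · rw [hi i hij]; simp [hij]
  have h2 : j ∉ univ.filter (fun i => (u.1 i).isRight = true) := by
    rw [Finset.mem_filter, hu]; simp
  have h3 : plev c = (univ.filter (fun i => (c.1 i).isRight = true)).card := rfl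
  have h4 : plev u = (univ.filter (fun i => (u.1 i).isRight = true)).card := rfl
  rw [h3, h1, Finset.card_insert_of_notMem h2, h4]

/-- a child differs in the coordinate `plev u` -/
theorem idx_child {u c : PT V W} {j : Fin k} {v : V j} {w : W j} (hl : plev c = plev u + 1)
    (hu : u.1 j = Sum.inl v) (hc : c.1 j = Sum.inr w) : (j : ℕ) = plev u := by
  have h1 : ¬ (j : ℕ) < plev u := by
    rw [← right_iff, hu]; simp
  have h2 : (j : ℕ) < plev c := by
    rw [← right_iff, hc]; rfl
  omega

/-- children, with the index -/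
theorem mem_pch' {ch : ∀ j, V j → Finset (W j)} {u c : PT V W} (h : c ∈ pch ch u) :
    ∃ (hk : plev u < k) (v : V ⟨plev u, hk⟩) (w : W ⟨plev u, hk⟩), u.1 ⟨plev u, hk⟩ = Sum.inl v ∧
      c.1 ⟨plev u, hk⟩ = Sum.inr w ∧ w ∈ ch ⟨plev u, hk⟩ v ∧ ∀ i, i ≠ ⟨plev u, hk⟩ → c.1 i = u.1 i := by
  obtain ⟨j, v, w, hu, hc, hw, hi⟩ := mem_pch.mp h
  have hj := idx_child (plev_child h) hu hc
  have hk : plev u < k := hj ▸ j.2
  have hjj : j = ⟨plev u, hk⟩ := Fin.ext hj
  refine ⟨hk, ?_⟩
  rw [← hjj]
  exact ⟨v, w, hu, hc, hw, hi⟩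

/-- the number of the elements of layer `l` -/
theorem card_layer (l : ℕ) : (univ.filter fun v : PT V W => plev v = l).card =
    if l ≤ k then ∏ j : Fin k, (if (j : ℕ) < l then Fintype.card (W j) else Fintype.card (V j)) else 0 := by
  classical
  by_cases hl : l ≤ k
  swap
  · rw [if_neg hl, Finset.card_eq_zero, Finset.filter_eq_empty_iff]
    intro u _ hu
    exact hl (hu ▸ plev_le u)
  rw [if_pos hl]
  have h1 : (univ.filter fun v : PT V W => plev v = l).map
      ⟨fun u : PT V W => u.1, fun _ _ h => Subtype.ext h⟩ =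
      Fintype.piFinset (fun j : Fin k => if (j : ℕ) < l then
        ((univ : Finset (W j)).map ⟨(Sum.inr : W j → V j ⊕ W j), Sum.inr_injective⟩)
        else ((univ : Finset (V j)).map ⟨(Sum.inl : V j → V j ⊕ W j), Sum.inl_injective⟩)) := by
    ext x
    rw [Finset.mem_map, Fintype.mem_piFinset]
    constructor
    · rintro ⟨u, hu, rfl⟩ j
      rw [Finset.mem_filter] at hu
      have hj := right_iff u j
      rw [hu.2] at hj
      split_ifs with hjl
      · have h2 := hj.mpr hjl
        rw [Finset.mem_map]
        change ∃ a ∈ univ, Sum.inr a = u.1 j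
        cases hx : u.1 j with
        | inl a => rw [hx] at h2; simp at h2
        | inr a => exact ⟨a, Finset.mem_univ _, rfl⟩
      · rw [Finset.mem_map]
        change ∃ a ∈ univ, Sum.inl a = u.1 j
        cases hx : u.1 j with
        | inl a => exact ⟨a, Finset.mem_univ _, rfl⟩
        | inr a => exact absurd (hj.mp (by rw [hx]; rfl)) hjl
    · intro hx
      have hr : ∀ j : Fin k, (x j).isRight = true ↔ (j : ℕ) < l := by
        intro j
        have h2 := hx j
        split_ifs at h2 with hjl
        · rw [Finset.mem_map] at h2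
          obtain ⟨a, -, ha⟩ := h2
          rw [← ha]
          exact ⟨fun _ => hjl, fun _ => rfl⟩
        · rw [Finset.mem_map] at h2
          obtain ⟨a, -, ha⟩ := h2
          rw [← ha]
          constructor
          · intro h3; exact absurd h3 (by simp)
          · intro h3; exact absurd h3 hjl
      have hp : ∀ i j : Fin k, i < j → (x j).isRight = true → (x i).isRight = true := by
        intro i j hij hj
        rw [hr] at hj ⊢
        exact lt_trans hij hj
      refine ⟨⟨x, hp⟩, ?_, rfl⟩
      rw [Finset.mem_filter]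
      refine ⟨Finset.mem_univ _, ?_⟩
      have h3 : plev (⟨x, hp⟩ : PT V W) = (univ.filter (fun j : Fin k => (x j).isRight = true)).card := rfl
      rw [h3]
      have h4 : univ.filter (fun j : Fin k => (x j).isRight = true) = univ.filter (fun j : Fin k => (j : ℕ) < l) := by
        ext j; simp only [Finset.mem_filter, Finset.mem_univ, true_and]; exact hr j
      rw [h4, Fin.card_filter_val_lt]
      exact min_eq_right hl
  rw [← Finset.card_map ⟨fun u : PT V W => u.1, fun _ _ h => Subtype.ext h⟩, h1, Fintype.card_piFinset]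
  refine Finset.prod_congr rfl fun j _ => ?_
  split_ifs with hjl
  · rw [Finset.card_map, Finset.card_univ]
  · rw [Finset.card_map, Finset.card_univ]

/-- the number of children -/
theorem card_children (ch : ∀ j, V j → Finset (W j)) (d : ℕ → ℕ) (hd : ∀ (j : Fin k) v, (ch j v).card = d j)
    (u : PT V W) (hu : plev u < k) : (pch ch u).card = d (plev u) := by
  classical
  cases hx : u.1 ⟨plev u, hu⟩ with
  | inr a =>
    have h1 := (right_iff u ⟨plev u, hu⟩).mp (by rw [hx]; rfl)
    exact absurd h1 (lt_irrefl _)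
  | inl a =>
    have hp : ∀ w : W ⟨plev u, hu⟩, ∀ i j : Fin k, i < j →
        (Function.update u.1 ⟨plev u, hu⟩ (Sum.inr w) j).isRight = true →
        (Function.update u.1 ⟨plev u, hu⟩ (Sum.inr w) i).isRight = true := by
      intro w i j hij hj
      by_cases hjj : j = ⟨plev u, hu⟩
      · subst hjj
        rw [Function.update_of_ne (ne_of_lt hij), right_iff]
        exact hij
      · rw [Function.update_of_ne hjj, right_iff] at hj
        have h2 : i < (⟨plev u, hu⟩ : Fin k) := lt_trans hij hj
        rw [Function.update_of_ne (ne_of_lt h2), right_iff]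
        exact h2
    rw [← hd ⟨plev u, hu⟩ a]
    symm
    refine Finset.card_bij
      (fun w _ => (⟨Function.update u.1 ⟨plev u, hu⟩ (Sum.inr w), hp w⟩ : PT V W)) ?_ ?_ ?_
    · intro w hw
      rw [mem_pch]
      refine ⟨⟨plev u, hu⟩, a, w, hx, ?_, hw, ?_⟩
      · exact Function.update_self _ _ _
      · intro i hi
        exact Function.update_of_ne hi _ _
    · intro w1 _ w2 _ he
      have h1 := congrArg (fun z : PT V W => z.1 ⟨plev u, hu⟩) he
      simp only [Function.update_self] at h1
      exact Sum.inr_injective h1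
    · intro c hc
      obtain ⟨hk, v, w, h1, h2, h3, h4⟩ := mem_pch' hc
      have hva : v = a := Sum.inl_injective (h1.symm.trans hx)
      subst hva
      refine ⟨w, h3, ?_⟩
      apply pt_ext
      intro i
      by_cases hi : i = ⟨plev u, hk⟩
      · subst hi
        rw [h2]
        exact Function.update_self _ _ _
      · rw [h4 i hi]
        exact Function.update_of_ne hi _ _

/-- the number of parents -/
theorem card_parents (ch : ∀ j, V j → Finset (W j)) (m : ℕ → ℕ)
    (hm : ∀ (j : Fin k) (c : W j), Nat.card {v : V j // c ∈ ch j v} ≤ m j)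
    (c : PT V W) : (univ.filter fun v => c ∈ pch ch v).card ≤ m (plev c - 1) := by
  classical
  by_cases h0 : (univ.filter fun v => c ∈ pch ch v) = ∅
  · rw [h0]; simp
  · obtain ⟨v0, hv0⟩ := Finset.nonempty_iff_ne_empty.mpr h0
    rw [Finset.mem_filter] at hv0
    have hl0 := plev_child hv0.2
    obtain ⟨hk0, a0, w0, -, hc0, -, -⟩ := mem_pch' hv0.2
    have hkc : plev c - 1 < k := by omega
    have hj0 : (⟨plev v0, hk0⟩ : Fin k) = ⟨plev c - 1, hkc⟩ := Fin.ext (by simp only; omega)
    obtain ⟨w, hw⟩ : ∃ w, c.1 ⟨plev c - 1, hkc⟩ = Sum.inr w := by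
      rw [← hj0]; exact ⟨w0, hc0⟩
    refine le_trans ?_ (hm ⟨plev c - 1, hkc⟩ w)
    rw [Nat.card_eq_fintype_card, Fintype.card_subtype,
      ← Finset.card_map ⟨fun u : PT V W => u.1, fun _ _ h => Subtype.ext h⟩]
    refine le_trans (Finset.card_le_card ?_) (Finset.card_image_le (s := univ.filter fun a => w ∈ ch ⟨plev c - 1, hkc⟩ a)
      (f := fun a => Function.update c.1 ⟨plev c - 1, hkc⟩ (Sum.inl a)))
    intro x hx
    rw [Finset.mem_map] at hx
    obtain ⟨v, hv, rfl⟩ := hx
    rw [Finset.mem_filter] at hv
    have hl := plev_child hv.2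
    obtain ⟨j, a, w', h1, h2, h3, h4⟩ := mem_pch.mp hv.2
    have hj : j = ⟨plev c - 1, hkc⟩ := by
      have h5 := idx_child hl h1 h2
      exact Fin.ext (by simp only; omega)
    subst hj
    have hww : w' = w := Sum.inr_injective (h2.symm.trans hw)
    subst hww
    rw [Finset.mem_image]
    refine ⟨a, ?_, ?_⟩
    · rw [Finset.mem_filter]; exact ⟨Finset.mem_univ _, h3⟩
    · funext i
      by_cases hi : i = ⟨plev c - 1, hkc⟩
      · subst hi
        rw [Function.update_self]; exact h1.symm
      · rw [Function.update_of_ne hi]; exact h4 i hi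

/-- two vertices share at most one child -/
theorem share_prod (ch : ∀ j, V j → Finset (W j)) (hs : ∀ (j : Fin k) (a b : V j), a ≠ b → ∀ w ∈ ch j a, w ∈ ch j b →
    ∀ w' ∈ ch j a, w' ∈ ch j b → w = w') (u v : PT V W) (huv : u ≠ v) (c : PT V W) (hcu : c ∈ pch ch u)
    (hcv : c ∈ pch ch v) (c' : PT V W) (hcu' : c' ∈ pch ch u) (hcv' : c' ∈ pch ch v) : c = c' := by
  have l1 := plev_child hcu
  have l2 := plev_child hcv
  have l3 := plev_child hcu'
  have l4 := plev_child hcv'
  obtain ⟨j, a, w, h1, h2, h3, h4⟩ := mem_pch.mp hcu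
  obtain ⟨j2, b, w2, h12, h22, h32, h42⟩ := mem_pch.mp hcv
  obtain ⟨j3, a3, w3, h13, h23, h33, h43⟩ := mem_pch.mp hcu'
  obtain ⟨j4, b4, w4, h14, h24, h34, h44⟩ := mem_pch.mp hcv'
  have i1 := idx_child l1 h1 h2
  have i2 := idx_child l2 h12 h22
  have i3 := idx_child l3 h13 h23
  have i4 := idx_child l4 h14 h24
  have e2 : j2 = j := Fin.ext (by omega)
  have e3 : j3 = j := Fin.ext (by omega)
  have e4 : j4 = j := Fin.ext (by omega)
  subst e2
  subst e3
  subst e4
  have hw2 : w2 = w := Sum.inr_injective (h22.symm.trans h2)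
  have hw4 : w4 = w3 := Sum.inr_injective (h24.symm.trans h23)
  have ha3 : a3 = a := Sum.inl_injective (h13.symm.trans h1)
  have hb4 : b4 = b := Sum.inl_injective (h14.symm.trans h12)
  subst hw2
  subst hw4
  subst ha3
  subst hb4
  have hab : a3 ≠ b4 := by
    intro hab
    apply huv
    apply pt_ext
    intro i
    by_cases hi : i = j4
    · subst hi; rw [h1, h12, hab]
    · rw [← h4 i hi, ← h42 i hi]
  have hww := hs j4 a3 b4 hab w2 h3 h32 w4 h33 h34
  apply pt_ext
  intro i
  by_cases hi : i = j4
  · subst hi; rw [h2, h23, hww]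
  · rw [h4 i hi, h43 i hi]

end

/-- module PRA -/
theorem hPRA : StPra := by
  classical
  intro k V W _ _ _ _ d m gg J Q B st hm
  refine ⟨plev_le, fun u c hc => plev_child hc, ?_, ?_, ?_, ?_, ?_⟩
  · intro l hl
    rw [card_layer, if_pos hl]
    have h1 : Rr d m l = ∏ j : Fin k, (if (j : ℕ) < l then (d j : ℝ) / m j else 1) := by
      rw [Fin.prod_univ_eq_prod_range (fun i => if i < l then (d i : ℝ) / m i else 1) k, ← Finset.prod_filter]
      unfold Rr
      refine Finset.prod_congr ?_ fun _ _ => rfl
      ext i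
      simp only [Finset.mem_range, Finset.mem_filter]
      omega
    rw [h1]
    push_cast
    rw [← Finset.prod_mul_distrib]
    refine Finset.prod_congr rfl fun j _ => ?_
    have hmj : (m j : ℝ) ≠ 0 := by
      have := hm j
      exact_mod_cast (by omega : m j ≠ 0)
    split_ifs with hjl
    · rw [(st j).cardW]
      push_cast
      field_simp
    · rw [(st j).cardV]
      push_cast
      ring
  · intro u hu
    exact card_children _ d (fun j v => (st j).card_ch v) u hu
  · intro c
    refine card_parents _ m ?_ c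
    intro j w
    rw [Nat.card_eq_fintype_card, Fintype.card_subtype]
    have h := (st j).card_par w
    convert h
  · intro u v huv
    rw [Finset.card_le_one]
    intro c hc c' hc'
    rw [Finset.mem_inter] at hc hc'
    refine share_prod _ ?_ u v huv c hc.1 hc.2 c' hc'.1 hc'.2
    intro j a b hab w h1 h2 w' h3 h4
    have h := (st j).share a b hab
    rw [Finset.card_le_one] at h
    exact h w (Finset.mem_inter.mpr ⟨h1, h2⟩) w' (Finset.mem_inter.mpr ⟨h3, h4⟩)
  · intro c v
    unfold pσ
    rw [norm_prod]
    apply Finset.prod_eq_one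
    intro j _
    cases hc : c.1 j with
    | inl a => cases hv : v.1 j with
      | inl b => simp [ph1]
      | inr b => simp [ph1]
    | inr a => cases hv : v.1 j with
      | inl b => exact (st j).uni a b
      | inr b => simp [ph1]

end Pool.Agent.Helper93.XP
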